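import Pool.Agent.helper83.GR.Spec

/-! EQL: the block idempotents of `H` and of `C_H(y)`. -/

set_option autoImplicit false

namespace Pool.Agent.GR

open Pool.Agent.helper58.DC Pool.Agent.DI

open Classical in
/-- indicator function of `conjugatesOf g ∩ H` -/
noncomputable def EQL_ind {G : Type} [Group G] (H : Subgroup G) (g : G) : G → ℂ :=
  fun x => if x ∈ conjugatesOf g ∧ x ∈ H then 1 else 0

theorem EQL_ind_CF {G : Type} [Group G] (H : Subgroup G) (g : G) : CF H (EQL_ind H g) := by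
  constructor
  · intro h hh x
    have h1 : h * x * h⁻¹ ∈ conjugatesOf g ↔ x ∈ conjugatesOf g := by
      change IsConj g (h * x * h⁻¹) ↔ IsConj g x
      have hxx : IsConj x (h * x * h⁻¹) := isConj_iff.2 ⟨h, rfl⟩
      exact ⟨fun hc => hc.trans hxx.symm, fun hc => hc.trans hxx⟩
    have h2 : h * x * h⁻¹ ∈ H ↔ x ∈ H := by
      rw [H.mul_mem_cancel_right (H.inv_mem hh), H.mul_mem_cancel_left hh]
    unfold EQL_ind
    rw [h1, h2]
  · intro x hx
    unfold EQL_ind
    rw [if_neg]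
    exact fun h => hx h.2

theorem EQL_ind_int {G : Type} [Group G] {p : ℕ} {M : Ideal (integralClosure ℤ ℂ)}
    (hS : Setup p M) (H : Subgroup G) (g x : G) : IntAt M (EQL_ind H g x) := by
  unfold EQL_ind
  split_ifs
  · exact IntAt.one hS
  · exact IntAt.zero hS

theorem EQL_omega {G : Type} [Group G] (H : Subgroup G) (ψ : G → ℂ) (hψ : ∀ g, g ∉ H → ψ g = 0)
    (g : G) : omega ψ g = cc ψ (EQL_ind H g) := by
  unfold omega cc
  congr 1
  rw [finsum_mem_def]
  apply finsum_congr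
  intro x
  unfold EQL_ind
  by_cases hx : x ∈ conjugatesOf g
  · rw [Set.indicator_of_mem hx]
    by_cases hH : x ∈ H
    · rw [if_pos ⟨hx, hH⟩, one_mul]
    · rw [hψ x hH, mul_zero]
  · rw [Set.indicator_of_notMem hx, if_neg (fun h => hx h.1), zero_mul]

theorem EQL_ind_iff {G : Type} [Group G] {M : Ideal (integralClosure ℤ ℂ)} (θ ψ χ : G → ℂ)
    (h : ∀ g, Mcong M (omega θ g) (omega ψ g)) : Induces M θ χ ↔ Induces M ψ χ := by
  constructor
  · intro h1 g
    obtain ⟨a, ha, e⟩ := h1 g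
    obtain ⟨b, hb, e'⟩ := h g
    refine ⟨a - b, M.sub_mem ha hb, ?_⟩
    push_cast
    rw [← e, ← e']
    ring
  · intro h1 g
    obtain ⟨a, ha, e⟩ := h1 g
    obtain ⟨b, hb, e'⟩ := h g
    refine ⟨a + b, M.add_mem ha hb, ?_⟩
    push_cast
    rw [← e, ← e']
    ring

theorem EQL_mem {G : Type} [Group G] (H : Subgroup G) (y x : G) :
    x ∈ Cz H y ↔ x ∈ H ∧ y * x = x * y := by
  unfold Cz
  rw [Subgroup.mem_inf, Subgroup.mem_centralizer_iff]
  simp

theorem EQL_alg {A : Type} [AddCommGroup A] (m : A → A → A)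
    (hass : ∀ a b c, m (m a b) c = m a (m b c))
    (hadd : ∀ a b c, m (a + b) c = m a c + m b c) (hadd' : ∀ a b c, m a (b + c) = m a b + m a c)
    (hsub : ∀ a b c, m (a - b) c = m a c - m b c) (hsub' : ∀ a b c, m a (b - c) = m a b - m a c)
    (e f u : A) (he : m e e = e + u) (hf : m f f = f) (hc : m e f = m f e) (hu : m u e = m e u)
    (hu' : m u f = m f u) :
    m (m (e - f) (e - f)) (e - f) - (e - f) = u + m e u - (m f u + m f u + m f u) := by
  have h1 : m (m f e) e = m f e + m f u := by rw [hass, he, hadd']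
  have h2 : m (m f e) f = m f e := by rw [← hc, hass, hf]
  have h3 : m (e - f) (e - f) = e + u - m f e - (m f e - f) := by
    rw [hsub, hsub', hsub', he, hf, hc]
  rw [h3, hsub, hsub, hadd, hsub, hsub', hsub', hsub', hsub', he, hf, hc, h1, h2, hu, hu']
  abel

theorem EQL (hEIN : EIN_stmt) (hBCL : BCL_stmt) (hBRH : BRH_stmt) (hLIF : LIF_stmt)
    (hIDM : IDM_stmt) (hNIL : NIL_stmt) (hCVF : CVF_stmt) (hCCI : CCI_stmt) (hOI : OI_stmt) :
    EQL_stmt := by
  classical
  intro p M hS G _ _ H y hy hyP χ x hx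
  obtain ⟨hass, hbil, -, -, -, -, hcomm, hCF, -, -, -, hInM⟩ := hCVF G
  have hLH : ∀ g, g ∉ H → g ∉ Cz H y := fun g hg hg' => hg ((EQL_mem H y g).1 hg').1
  have hBH : BC M H (Blk M χ H) := hBCL G M χ H
  have hBL : BC M (Cz H y) (Blk M χ (Cz H y)) := hBCL G M χ (Cz H y)
  have he := hEIN p M hS G H _ hBH
  have hf := hEIN p M hS G (Cz H y) _ hBL
  obtain ⟨eCF, ecc, eid, -⟩ := hIDM G H _ hBH.sub
  obtain ⟨fCF, fcc, fid, -⟩ := hIDM G (Cz H y) _ hBL.sub
  set e : G → ℂ := eS H (Blk M χ H) with hedef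
  set f : G → ℂ := eS (Cz H y) (Blk M χ (Cz H y)) with hfdef
  obtain ⟨hbr, e'CF, he'⟩ := hBRH p M hS G H y hy hyP e e eCF eCF he he
  set e' : G → ℂ := rs y e with he'def
  have heq : ∀ c ∈ Cz H y, e' c = e c := by
    intro c hc
    rw [he'def]
    unfold rs
    rw [if_pos ((EQL_mem H y c).1 hc).2]
  -- the null function u
  set u : G → ℂ := cv e' e' - e' with hudef
  have hee : CF (Cz H y) (cv e' e') := (hCF (Cz H y) e' e' e'CF e'CF).1
  have huCF : CF (Cz H y) u := (hCF (Cz H y) (cv e' e') e' hee e'CF).2.2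
  have hu : ∀ c, InM M (u c) := by
    intro c
    by_cases hc : c ∈ Cz H y
    · have h1 := (hbr c hc).neg
      rw [eid] at h1
      have h2 : u c = -(e c - cv e' e' c) := by
        rw [hudef, Pi.sub_apply, heq c hc]
        ring
      rw [h2]
      exact h1
    · rw [huCF.2 c hc]
      exact InM.zero hS
  have hzid : cv (cv (e' - f) (e' - f)) (e' - f) - (e' - f) =
      u + cv e' u - (cv f u + cv f u + cv f u) := by
    refine EQL_alg cv hass (fun a b c => (hbil a b c).1) (fun a b c => (hbil a b c).2.1)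
      (fun a b c => (hbil a b c).2.2.1) (fun a b c => (hbil a b c).2.2.2) e' f u ?_ fid ?_ ?_ ?_
    · rw [hudef]
      abel
    · exact hcomm (Cz H y) e' f e'CF fCF.2
    · exact hcomm (Cz H y) u e' huCF e'CF.2
    · exact hcomm (Cz H y) u f huCF fCF.2
  have hzCF : CF (Cz H y) (e' - f) := (hCF (Cz H y) e' f e'CF fCF).2.2
  have hzint : ∀ c, IntAt M ((e' - f) c) := fun c => (he' c).sub hS (hf c)
  have hznull : ∀ c, InM M (cv (cv (e' - f) (e' - f)) (e' - f) c - (e' - f) c) := by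
    intro c
    have h1 := congrFun hzid c
    rw [Pi.sub_apply] at h1
    rw [h1, Pi.sub_apply, Pi.add_apply, Pi.add_apply, Pi.add_apply]
    have a1 := hInM p M hS e' u he' hu c
    have a2 := hInM p M hS f u hf hu c
    exact ((hu c).add hS a1).sub hS ((a2.add hS a2).add hS a2)
  have hcc : ∀ θ ∈ IrrOn (Cz H y), InM M (cc θ (e' - f)) := by
    intro θ hθ
    obtain ⟨hcc1, -, -⟩ := hCCI G (Cz H y) θ hθ
    rw [(hcc1 1 e' f).2.1, fcc θ hθ]
    have h1 : cc θ e' = cc θ e := by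
      unfold cc
      congr 1
      apply finsum_congr
      intro c
      by_cases hc : c ∈ Cz H y
      · rw [heq c hc]
      · rw [hθ.1 c hc, mul_zero, mul_zero]
    rw [h1]
    obtain ⟨ψ, hψ, hlif⟩ := hLIF p M hS G H y hy hyP θ hθ
    have h2 := hlif e eCF he
    rw [ecc ψ hψ] at h2
    have hom : ∀ g, Mcong M (omega θ g) (omega ψ g) := by
      intro g
      apply InM.mcong hS (hOI G (Cz H y) θ hθ g) (hOI G H ψ hψ g)
      rw [EQL_omega H θ (fun g hg => hθ.1 g (hLH g hg)) g, EQL_omega H ψ hψ.1 g]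
      exact hlif _ (EQL_ind_CF H g) (fun c => EQL_ind_int hS H g c)
    have hiff : (ψ ∈ Blk M χ H) ↔ (θ ∈ Blk M χ (Cz H y)) := by
      constructor
      · rintro ⟨_, h3⟩
        exact ⟨hθ, (EQL_ind_iff θ ψ χ hom).2 h3⟩
      · rintro ⟨_, h3⟩
        exact ⟨hψ, (EQL_ind_iff θ ψ χ hom).1 h3⟩
    by_cases hB : ψ ∈ Blk M χ H
    · rw [if_pos hB] at h2
      rw [if_pos (hiff.1 hB)]
      exact h2
    · rw [if_neg hB] at h2
      rw [if_neg (fun h => hB (hiff.2 h))]
      exact h2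
  have hfin := hNIL p M hS G (Cz H y) (e' - f) hzCF hzint hcc hznull x
  rw [Pi.sub_apply, heq x hx] at hfin
  exact hfin

end Pool.Agent.GR
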